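import Mathlib
import Pool.Agent.Helper61.FR.St.P12

/-!
# Project JR (regular polynomial mixing): definitions

`avg M N f x` is the average of `f` over the points `2 ^ i * 3 ^ k * x`, `i < M`, `k < N`
(`Helper61/FR/Defs.lean`), `cf μ n` the `n`-th Fourier coefficient (`Helper61/FR/St/P12.lean`).
-/

set_option autoImplicit false

open MeasureTheory Finset

namespace Pool.Agent.Helper17.JR

open Pool.Agent.Helper61.FR

/-- the average of the `m`-th character over the `k`-th aligned block `2 ^ j × 2 ^ q` -/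
noncomputable def blk (m q j k : ℕ) (x : ℝ) : ℂ :=
  avg (2 ^ j) (2 ^ q) (fun y => e (m * y)) (2 ^ (k * 2 ^ j) * x)

/-- the second moment of the difference of the averages over two neighbouring blocks
`2 ^ j × 2 ^ q` -/
noncomputable def jump (μ : Measure ℝ) (m q j : ℕ) : ℝ :=
  ∫ x, ‖blk m q j 0 x - blk m q j 1 x‖ ^ 2 ∂μ

/-- the correlation of the `m`-th character with itself at time `(a, b)` in `ℤ × ℤ` -/
noncomputable def cz (μ : Measure ℝ) (m : ℕ) (a b : ℤ) : ℂ :=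
  cf μ (m * (2 ^ a.toNat * 3 ^ b.toNat - 2 ^ (-a).toNat * 3 ^ (-b).toNat)) -
    (‖cf μ m‖ ^ 2 : ℝ)

/-- regular polynomial decay of correlations with exponent `β` -/
def Reg (μ : Measure ℝ) (m : ℕ) (β C : ℝ) : Prop :=
  ∀ a b : ℤ, ‖cz μ m a b‖ ≤ C * (1 + |(a : ℝ)| + |(b : ℝ)|) ^ (-β) ∧
    ‖cz μ m (a + 1) b - cz μ m a b‖ ≤ C * (1 + |(a : ℝ)| + |(b : ℝ)|) ^ (-1 - β)

end Pool.Agent.Helper17.JR
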