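import Mathlib
import Pool.Agent.Helper17.JR.Defs

/-!
# Project JR: spectral densities
-/

set_option autoImplicit false

open MeasureTheory Finset

namespace Pool.Agent.Helper17.JR

open Pool.Agent.Helper61.FR

/-- The correlations of the `m`-th character are the Fourier coefficients of a density `d ≥ 0` on
`[-1/2, 1/2] ^ 2` (the spectral density under `ℤ × ℤ`), which is at most
`C (|u| + |v|) ^ (-s)` outside the origin of this square. -/
def Dens (μ : Measure ℝ) (m : ℕ) (s C : ℝ) : Prop :=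
  ∃ d : ℝ × ℝ → ℝ, Measurable d ∧ (∀ p, 0 ≤ d p) ∧
    (∀ p, p ≠ 0 → |p.1| ≤ 1 / 2 → |p.2| ≤ 1 / 2 → d p ≤ C * (|p.1| + |p.2|) ^ (-s)) ∧
    ∀ a b : ℤ, cz μ m a b =
      ∫ p in Set.Icc (-(1 / 2) : ℝ) (1 / 2) ×ˢ Set.Icc (-(1 / 2) : ℝ) (1 / 2),
        (d p : ℂ) * e (a * p.1 + b * p.2)

end Pool.Agent.Helper17.JR
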