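import Mathlib
import Pool.Agent.Helper17.JR.St.J1
import Pool.Agent.Helper17.JR.St.J2
import Pool.Agent.Helper17.JR.St.J3

/-!
# Moving averages from the second moments of jumps
-/

set_option autoImplicit false

open MeasureTheory Finset Filter

namespace Pool.Agent.Helper17.JR

open Pool.Agent.Helper61.FR

/-- the width of the boxes: the largest power of `2` which is at most `q ^ γ` -/
noncomputable def wid (γ : ℝ) (q : ℕ) : ℕ := 2 ^ Nat.log 2 ⌊(q : ℝ) ^ γ⌋₊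

lemma blk_eq_sum (m q j k : ℕ) (x : ℝ) :
    blk m q j k x = (∑ a ∈ range (2 ^ j),
      (∑ b ∈ range (2 ^ q), e (m * (2 ^ (k * 2 ^ j + a) * 3 ^ b * x))) / 2 ^ q) / 2 ^ j := by
  unfold blk avg
  rw [← Finset.sum_div, div_div]
  push_cast
  rw [mul_comm ((2 : ℂ) ^ q)]
  congr 1
  refine Finset.sum_congr rfl fun a _ => Finset.sum_congr rfl fun b _ => ?_
  congr 1
  rw [pow_add]
  ring

lemma avg_eq_sum (m q j i : ℕ) (x : ℝ) :
    avg (2 ^ j) (2 ^ q) (fun y => e (m * y)) (2 ^ i * x) = (∑ a ∈ range (2 ^ j),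
      (∑ b ∈ range (2 ^ q), e (m * (2 ^ (i + a) * 3 ^ b * x))) / 2 ^ q) / 2 ^ j := by
  unfold avg
  rw [← Finset.sum_div, div_div]
  push_cast
  rw [mul_comm ((2 : ℂ) ^ q)]
  congr 1
  refine Finset.sum_congr rfl fun a _ => Finset.sum_congr rfl fun b _ => ?_
  congr 1
  rw [pow_add]
  ring

lemma sq_le_two_pow (n : ℕ) (hn : 4 ≤ n) : n ^ 2 ≤ 2 ^ n := by
  induction n, hn using Nat.le_induction with
  | base => norm_num
  | succ n hn ih =>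
    have : (n + 1) ^ 2 ≤ 2 * n ^ 2 := by nlinarith
    calc (n + 1) ^ 2 ≤ 2 * n ^ 2 := this
      _ ≤ 2 * 2 ^ n := by omega
      _ = 2 ^ (n + 1) := by ring

lemma log_floor_le {γ : ℝ} (hγ2 : γ ≤ 2) {q : ℕ} (hq : 4 ≤ q) :
    Nat.log 2 ⌊(q : ℝ) ^ γ⌋₊ ≤ q := by
  have hq1 : (1 : ℝ) ≤ q := by exact_mod_cast (by omega : 1 ≤ q)
  have h1 : ⌊(q : ℝ) ^ γ⌋₊ ≤ 2 ^ q := by
    have h2 : (q : ℝ) ^ γ ≤ ((2 ^ q : ℕ) : ℝ) := by
      calc (q : ℝ) ^ γ ≤ (q : ℝ) ^ 2 := by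
            rw [← Real.rpow_natCast]
            exact Real.rpow_le_rpow_of_exponent_le hq1 (by exact_mod_cast hγ2)
        _ ≤ ((2 ^ q : ℕ) : ℝ) := by exact_mod_cast sq_le_two_pow q hq
    exact (Nat.floor_mono h2).trans (by rw [Nat.floor_natCast])
  calc Nat.log 2 ⌊(q : ℝ) ^ γ⌋₊ ≤ Nat.log 2 (2 ^ q) := Nat.log_mono_right h1
    _ = q := Nat.log_pow (by norm_num) _

lemma exists_log_ge {γ : ℝ} (hγ0 : 0 < γ) (s : ℕ) :
    ∃ Q : ℕ, ∀ q : ℕ, Q ≤ q → s ≤ Nat.log 2 ⌊(q : ℝ) ^ γ⌋₊ := by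
  have h1 : Tendsto (fun q : ℕ => (q : ℝ) ^ γ) atTop atTop :=
    (tendsto_rpow_atTop hγ0).comp tendsto_natCast_atTop_atTop
  obtain ⟨Q, hQ⟩ := eventually_atTop.mp (h1.eventually_ge_atTop (2 ^ s))
  refine ⟨Q, fun q hq => ?_⟩
  apply Nat.le_log_of_pow_le (by norm_num)
  apply Nat.le_floor
  push_cast
  exact hQ q hq

lemma norm_inner_le (m q n : ℕ) (x : ℝ) :
    ‖(∑ b ∈ range (2 ^ q), e (m * (2 ^ n * 3 ^ b * x))) / 2 ^ q‖ ≤ 1 := by
  rw [norm_div]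
  have h1 : ‖∑ b ∈ range (2 ^ q), e (m * (2 ^ n * 3 ^ b * x))‖ ≤ 2 ^ q := by
    calc _ ≤ ∑ b ∈ range (2 ^ q), ‖e (m * (2 ^ n * 3 ^ b * x))‖ := norm_sum_le _ _
      _ = 2 ^ q := by simp [norm_e]
  have h2 : ‖(2 : ℂ) ^ q‖ = 2 ^ q := by simp
  rw [h2, div_le_one (by positivity)]
  exact h1

/-- **Moving averages from the second moments of jumps.** -/
theorem moving_of_jump {μ : Measure ℝ} (h : Inv23 μ) (m : ℕ) (κ a γ C : ℝ) (hκ : 0 ≤ κ)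
    (hκ1 : κ < 1) (ha : 0 ≤ a) (hγ0 : 0 < γ) (hγ2 : γ ≤ 2) (hγ : 1 + a < γ * (1 - κ)) (hC : 0 ≤ C)
    (hroot : ∀ η : ℝ, 0 < η → Summable fun q : ℕ => μ.real (dev μ (2 ^ q) (2 ^ q) m η))
    (hV : ∀ q j, j ≤ q → jump μ m q j ≤ C * (2 : ℝ) ^ (κ * j) * ((q : ℝ) + 1) ^ a / 2 ^ q) :
    ∀ᵐ x ∂μ, ∀ ε : ℝ, 0 < ε → ∃ Q : ℕ, ∀ q, Q ≤ q → ∀ i, i ≤ 2 ^ q →
      ‖avg (wid γ q) (2 ^ q) (fun y => e (m * y)) (2 ^ i * x) - ∫ y, e (m * y) ∂μ‖ ≤ ε := by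
  have := h.prob
  have key : ∀ ε : ℝ, 0 < ε → ∀ᵐ x ∂μ, ∀ᶠ q : ℕ in atTop,
      x ∉ {x | ∃ i, i ≤ 2 ^ q ∧ ε < ‖avg (wid γ q) (2 ^ q) (fun y => e (m * y)) (2 ^ i * x) -
        ∫ y, e (m * y) ∂μ‖} := by
    intro ε hε
    obtain ⟨s, hs⟩ : ∃ s : ℕ, 4 / (2 : ℝ) ^ s ≤ ε / 2 := by
      obtain ⟨s, hs⟩ := pow_unbounded_of_one_lt (8 / ε) (by norm_num : (1 : ℝ) < 2)
      refine ⟨s, ?_⟩
      rw [div_le_iff₀ (by positivity)]
      rw [div_lt_iff₀ hε] at hs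
      linarith
    obtain ⟨θ, hθ, hθs, F, hFs, hF0, hF⟩ := exists_theta κ a γ C (ε / 2) hκ hκ1 ha hγ0.le hγ hC
      (by positivity) s (fun q j => jump μ m q j) hV
    obtain ⟨Q₁, hQ₁⟩ := exists_log_ge hγ0 s
    apply ae_eventually_notMem
    have hmain : ∀ q, Q₁ + 4 ≤ q → μ.real {x | ∃ i, i ≤ 2 ^ q ∧
        ε < ‖avg (wid γ q) (2 ^ q) (fun y => e (m * y)) (2 ^ i * x) - ∫ y, e (m * y) ∂μ‖} ≤
          2 * μ.real (dev μ (2 ^ q) (2 ^ q) m (ε / 4)) + F q := by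
      intro q hq
      have hL := hQ₁ q (by omega)
      have hLq := log_floor_le hγ2 (q := q) (by omega)
      obtain ⟨L, hLd⟩ : ∃ L, L = Nat.log 2 ⌊(q : ℝ) ^ γ⌋₊ := ⟨_, rfl⟩
      have hsum := hθs q
      have hFq := hF q
      have hch := chain_measure h m q (Nat.log 2 ⌊(q : ℝ) ^ γ⌋₊ - s) (by omega) (θ q) (hθ q) (ε / 4)
      rw [← hLd] at hL hLq hsum hFq hch
      refine (measureReal_mono ?_ (measure_ne_top μ _)).trans
        (hch.trans (by linarith))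
      rintro x ⟨i, hi, hx⟩
      by_contra hcon
      rw [Set.mem_ofPred_eq] at hcon
      push Not at hcon
      apply absurd hx
      rw [not_lt]
      have e1 : wid γ q = 2 ^ (L - s + s) := by
        unfold wid
        rw [← hLd]
        congr 1
        omega
      rw [e1, avg_eq_sum]
      have hc : ‖∫ y, e (m * y) ∂μ‖ ≤ 1 := by
        have h5 := norm_integral_le_of_norm_le_const (μ := μ) (f := fun y => e (m * y)) (C := 1)
          (Eventually.of_forall fun y => (norm_e _).le)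
        simpa using h5
      have := block_close (fun n => (∑ b ∈ range (2 ^ q), e (m * (2 ^ n * 3 ^ b * x))) / 2 ^ q)
        (fun n => norm_inner_le m q n x) _ hc (ε / 2) (by positivity) (L - s) s q (by omega)
        (fun k hk => by
          have h6 := hcon k hk
          rw [blk_eq_sum] at h6
          linarith) i hi
      linarith
    have hs1 : Summable fun q : ℕ => μ.real {x | ∃ i, i ≤ 2 ^ q ∧
        ε < ‖avg (wid γ q) (2 ^ q) (fun y => e (m * y)) (2 ^ i * x) - ∫ y, e (m * y) ∂μ‖} := by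
      have hs2 := (((hroot (ε / 4) (by positivity)).mul_left 2).add hFs)
      rw [← summable_nat_add_iff (Q₁ + 4)] at hs2 ⊢
      exact Summable.of_nonneg_of_le (fun _ => measureReal_nonneg)
        (fun q => hmain (q + (Q₁ + 4)) (by omega)) hs2
    have h1 := hs1.tsum_ofReal_ne_top
    refine ne_of_eq_of_ne (tsum_congr fun q => ?_) h1
    rw [measureReal_def, ENNReal.ofReal_toReal (measure_ne_top μ _)]
  have hall : ∀ᵐ x ∂μ, ∀ k : ℕ, ∀ᶠ q : ℕ in atTop,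
      x ∉ {x | ∃ i, i ≤ 2 ^ q ∧ (1 / ((k : ℝ) + 1)) < ‖avg (wid γ q) (2 ^ q) (fun y => e (m * y))
        (2 ^ i * x) - ∫ y, e (m * y) ∂μ‖} := by
    rw [ae_all_iff]
    intro k
    exact key _ (by positivity)
  filter_upwards [hall] with x hx ε hε
  obtain ⟨k, hk⟩ := exists_nat_one_div_lt hε
  obtain ⟨Q, hQ⟩ := eventually_atTop.mp (hx k)
  refine ⟨Q, fun q hq i hi => ?_⟩
  have h1 := hQ q hq
  by_contra hcon
  push Not at hcon
  exact h1 ⟨i, hi, hk.trans hcon⟩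

end Pool.Agent.Helper17.JR
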