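import Mathlib
import Pool.Agent.Helper17.JR.Moving
import Pool.Agent.Helper17.KW.Window
import Pool.Agent.Helper17.JR.St.J5
import Pool.Agent.Helper17.JR.St.J6
import Pool.Agent.Helper40.TMA.CoreW

/-!
# Slowly decaying correlations: the main theorems on `[0, 1)`
-/

set_option autoImplicit false

open MeasureTheory Finset Filter

namespace Pool.Agent.Helper17.JR

open Pool.Agent.Helper61.FR Pool.Agent.Helper40.TMA

lemma one_le_wid (γ : ℝ) (q : ℕ) : 1 ≤ wid γ q := by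
  unfold wid
  exact Nat.one_le_two_pow

lemma wid_le {γ : ℝ} (hγ : 0 ≤ γ) {q : ℕ} (hq : 1 ≤ q) : (wid γ q : ℝ) ≤ (q : ℝ) ^ γ := by
  have h1 : (1 : ℝ) ≤ (q : ℝ) ^ γ := Real.one_le_rpow (by exact_mod_cast hq) hγ
  have h2 : 1 ≤ ⌊(q : ℝ) ^ γ⌋₊ := Nat.le_floor (by exact_mod_cast h1)
  have h3 : wid γ q ≤ ⌊(q : ℝ) ^ γ⌋₊ := Nat.pow_log_le_self 2 (by omega)
  exact (by exact_mod_cast h3 : (wid γ q : ℝ) ≤ ⌊(q : ℝ) ^ γ⌋₊).trans (Nat.floor_le (by positivity))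

lemma fits_wid {γ γ' : ℝ} (hγ0 : 0 ≤ γ) (hγ : γ < γ') (hγ2 : γ ≤ 2) :
    Fits (wid γ) (KW.wing γ') := by
  intro n₀
  -- `q ^ γ + n₀ + 1 ≤ q ^ γ'` for large `q`
  have h1 : Tendsto (fun q : ℕ => (q : ℝ) ^ (γ' - γ)) atTop atTop :=
    (tendsto_rpow_atTop (by linarith)).comp tendsto_natCast_atTop_atTop
  obtain ⟨Q, hQ⟩ := eventually_atTop.mp (h1.eventually_ge_atTop ((n₀ : ℝ) + 2))
  refine ⟨Q + n₀ + 8, fun q hq => ⟨one_le_wid γ q, ?_, ?_⟩⟩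
  · have hq1 : (1 : ℝ) ≤ q := by exact_mod_cast (by omega : 1 ≤ q)
    have h2 := hQ q (by omega)
    have h3 : (q : ℝ) ^ γ' = (q : ℝ) ^ γ * (q : ℝ) ^ (γ' - γ) := by
      rw [← Real.rpow_add (by linarith)]
      congr 1
      ring
    have h4 : (1 : ℝ) ≤ (q : ℝ) ^ γ := Real.one_le_rpow hq1 hγ0
    have h5 := wid_le hγ0 (q := q) (by omega)
    unfold KW.wing
    apply Nat.le_floor
    push_cast
    rw [h3]
    have h6 : (0 : ℝ) ≤ n₀ := Nat.cast_nonneg _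
    nlinarith
  · have h5 := wid_le hγ0 (q := q) (by omega)
    have hq1 : (1 : ℝ) ≤ q := by exact_mod_cast (by omega : 1 ≤ q)
    have h6 : (q : ℝ) ^ γ ≤ (q : ℝ) ^ 2 := by
      rw [← Real.rpow_natCast]
      exact Real.rpow_le_rpow_of_exponent_le hq1 (by exact_mod_cast hγ2)
    have h7 : wid γ q ≤ q ^ 2 := by exact_mod_cast h5.trans h6
    have h8 : ∀ n : ℕ, 8 ≤ n → n ^ 2 + n ≤ 2 ^ n := by
      intro n hn
      induction n, hn using Nat.le_induction with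
      | base => norm_num
      | succ n hn ih =>
        have : (n + 1) ^ 2 + (n + 1) ≤ 2 * (n ^ 2 + n) := by nlinarith
        calc (n + 1) ^ 2 + (n + 1) ≤ 2 * (n ^ 2 + n) := this
          _ ≤ 2 * 2 ^ n := by omega
          _ = 2 ^ (n + 1) := by ring
    have h9 := h8 q (by omega)
    omega

/-- **Rigidity from the second moments of the jumps.**  The jumps between neighbouring boxes
`w × N`, `w ≤ N = 2 ^ q`, may have second moments as large as `w ^ κ (log N) ^ a / N` with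
`3 κ + 2 a < 1`. -/
theorem core_jump {μ : Measure ℝ} (h : Inv23 μ) (h0 : ∀ x, μ {x} = 0)
    (hE : ∀ m : ℕ, 1 ≤ m → ∀ η : ℝ, 0 < η →
      Tendsto (fun q : ℕ => μ.real (dev μ (q / 200) (2 ^ q) m η)) atTop (nhds 0))
    (κ a : ℝ) (hκ : 0 ≤ κ) (ha : 0 ≤ a) (hκa : 3 * κ + 2 * a < 1)
    (hroot : ∀ m : ℕ, 1 ≤ m → ∀ η : ℝ, 0 < η →
      Summable fun q : ℕ => μ.real (dev μ (2 ^ q) (2 ^ q) m η))
    (hV : ∀ m : ℕ, 1 ≤ m → ∃ C : ℝ, 0 ≤ C ∧ ∀ q j, j ≤ q →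
      jump μ m q j ≤ C * (2 : ℝ) ^ (κ * j) * ((q : ℝ) + 1) ^ a / 2 ^ q)
    (m : ℕ) (hm : 1 ≤ m) : ∫ y, e (m * y) ∂μ = 0 := by
  obtain ⟨γ, hγ1, hγ2⟩ : ∃ γ : ℝ, (1 + a) / (1 - κ) < γ ∧ γ < 3 / 2 := by
    apply _root_.exists_between
    rw [div_lt_iff₀ (by linarith)]
    linarith
  have hγ3 : 1 + a < γ * (1 - κ) := by
    rw [div_lt_iff₀ (by linarith)] at hγ1
    exact hγ1
  have hγ0 : 0 < γ := by
    by_contra hcon
    push Not at hcon
    have : γ * (1 - κ) ≤ 0 := mul_nonpos_of_nonpos_of_nonneg hcon (by linarith)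
    linarith
  refine core_window h h0 hE (KW.wing ((γ + 3 / 2) / 2)) (KW.window_wing (by linarith)) (wid γ)
    (fits_wid hγ0.le (by linarith) (by linarith)) (fun m hm => ?_) m hm
  obtain ⟨C, hC, hCV⟩ := hV m hm
  exact moving_of_jump h m κ a γ C hκ (by linarith) ha hγ0 (by linarith) hγ3 hC (hroot m hm) hCV

lemma Reg.mono {μ : Measure ℝ} {m : ℕ} {β β' C : ℝ} (hβ : β' ≤ β) (hC : 0 ≤ C)
    (h : Reg μ m β C) : Reg μ m β' C := by
  intro a b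
  have h1 : (1 : ℝ) ≤ 1 + |(a : ℝ)| + |(b : ℝ)| := by
    have := abs_nonneg (a : ℝ)
    have := abs_nonneg (b : ℝ)
    linarith
  refine ⟨(h a b).1.trans ?_, (h a b).2.trans ?_⟩
  · exact mul_le_mul_of_nonneg_left (Real.rpow_le_rpow_of_exponent_le h1 (by linarith)) hC
  · exact mul_le_mul_of_nonneg_left (Real.rpow_le_rpow_of_exponent_le h1 (by linarith)) hC

lemma Reg.nonneg {μ : Measure ℝ} {m : ℕ} {β C : ℝ} (h : Reg μ m β C) : 0 ≤ C := by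
  have h1 := (h 0 0).1
  simp only [Int.cast_zero, abs_zero, add_zero, Real.one_rpow, mul_one] at h1
  exact (norm_nonneg _).trans h1

/-- **Polynomial mixing with an exponent larger than `2 / 3`.** -/
theorem core_reg {μ : Measure ℝ} (h : Inv23 μ) (h0 : ∀ x, μ {x} = 0)
    (hE : ∀ m : ℕ, 1 ≤ m → ∀ η : ℝ, 0 < η →
      Tendsto (fun q : ℕ => μ.real (dev μ (q / 200) (2 ^ q) m η)) atTop (nhds 0))
    (β : ℝ) (hβ : 2 / 3 < β) (hR : ∀ m : ℕ, 1 ≤ m → ∃ C : ℝ, Reg μ m β C)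
    (m : ℕ) (hm : 1 ≤ m) : ∫ y, e (m * y) ∂μ = 0 := by
  have hR' : ∀ m : ℕ, 1 ≤ m → ∃ C : ℝ, Reg μ m (min β (9 / 10)) C := fun m hm => by
    obtain ⟨C, hC⟩ := hR m hm
    exact ⟨C, hC.mono (min_le_left _ _) hC.nonneg⟩
  have h1 : 2 / 3 < min β (9 / 10) := lt_min hβ (by norm_num)
  have h2 : min β (9 / 10) ≤ 9 / 10 := min_le_right _ _
  refine core_jump h h0 hE (1 - min β (9 / 10)) 0 (by linarith) le_rfl (by linarith)
    (fun m hm η hη => ?_) (fun m hm => ?_) m hm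
  · obtain ⟨C, hC⟩ := hR' m hm
    exact root_summable h m _ C (by linarith) (by linarith) hC η hη
  · obtain ⟨C, hC⟩ := hR' m hm
    obtain ⟨C', hC', hJ⟩ := jump_le h m _ C (by linarith) (by linarith) hC
    refine ⟨C', hC', fun q j hj => (hJ q j hj).trans (le_of_eq ?_)⟩
    rw [Real.rpow_zero, mul_one]

end Pool.Agent.Helper17.JR
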