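import Mathlib
import Pool.Agent.Helper17.JR.Main
import Pool.Agent.Helper17.JR.St.J9
import Pool.Agent.Helper17.JR.St.J10

/-!
# Singular spectral densities: the main theorem on `[0, 1)`
-/

set_option autoImplicit false

open MeasureTheory Finset Filter

namespace Pool.Agent.Helper17.JR

open Pool.Agent.Helper61.FR Pool.Agent.Helper40.TMA

lemma Dens.nonneg {μ : Measure ℝ} {m : ℕ} {s C : ℝ} (h : Dens μ m s C) : 0 ≤ C := by
  obtain ⟨d, -, h0, h1, -⟩ := h
  have h2 := h1 (1 / 2, 0) (by simp) (by norm_num) (by norm_num)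
  have h3 := h0 (1 / 2, 0)
  have h4 : (0 : ℝ) < (|((1 / 2, 0) : ℝ × ℝ).1| + |((1 / 2, 0) : ℝ × ℝ).2|) ^ (-s) := by
    apply Real.rpow_pos_of_pos
    norm_num
  by_contra hcon
  push Not at hcon
  nlinarith

lemma Dens.mono {μ : Measure ℝ} {m : ℕ} {s s' C : ℝ} (hs : s ≤ s') (h : Dens μ m s C) :
    Dens μ m s' C := by
  have hC := h.nonneg
  obtain ⟨d, hd, h0, h1, h2⟩ := h
  refine ⟨d, hd, h0, fun p hp hp1 hp2 => (h1 p hp hp1 hp2).trans ?_, h2⟩
  have h3 : 0 < |p.1| + |p.2| := by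
    rcases eq_or_ne p.1 0 with h4 | h4
    · have h5 : p.2 ≠ 0 := fun h5 => hp (Prod.ext h4 h5)
      have := abs_pos.mpr h5
      have := abs_nonneg p.1
      linarith
    · have := abs_pos.mpr h4
      have := abs_nonneg p.2
      linarith
  exact mul_le_mul_of_nonneg_left
    (Real.rpow_le_rpow_of_exponent_ge h3 (by linarith) (by linarith)) hC

/-- **Spectral densities with a singularity weaker than `|θ| ^ (- 4 / 3)`.** -/
theorem core_dens {μ : Measure ℝ} (h : Inv23 μ) (h0 : ∀ x, μ {x} = 0) (s : ℝ) (hs : s < 4 / 3) (hD : ∀ m : ℕ, 1 ≤ m → ∃ C : ℝ, Dens μ m s C)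
    (m : ℕ) (hm : 1 ≤ m) : ∫ y, e (m * y) ∂μ = 0 := by
  have hD' : ∀ m : ℕ, 1 ≤ m → ∃ C : ℝ, Dens μ m (max s (7 / 6)) C := fun m hm => by
    obtain ⟨C, hC⟩ := hD m hm
    exact ⟨C, hC.mono (le_max_left _ _)⟩
  have h1 : max s (7 / 6) < 4 / 3 := max_lt hs (by norm_num)
  have h2 : 7 / 6 ≤ max s (7 / 6) := le_max_right _ _
  refine core_jump h h0 (fun m hm η hη => ?_) (max s (7 / 6) - 1) 0 (by linarith) le_rfl
    (by linarith) (fun m hm η hη => ?_) (fun m hm => ?_) m hm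
  · obtain ⟨C, hC⟩ := hD' m hm
    exact tendsto_dev_dens h m _ C (by linarith) (by linarith) hC η hη
  · obtain ⟨C, hC⟩ := hD' m hm
    exact root_dens h m _ C (by linarith) (by linarith) hC η hη
  · obtain ⟨C, hC⟩ := hD' m hm
    obtain ⟨C', hC', hJ⟩ := jump_dens h m _ C (by linarith) (by linarith) hC
    refine ⟨C', hC', fun q j hj => (hJ q j hj).trans (le_of_eq ?_)⟩
    rw [Real.rpow_zero, mul_one]

end Pool.Agent.Helper17.JR
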